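import Pool.Agent.helper70.QSD.SpecB

/-! # Row qsd:GLP -/

set_option linter.unusedVariables false

namespace Pool.Agent.helper70.QSD

open Pool.Agent.helper53.AU
open scoped Classical IntermediateField Polynomial

/-- the polynomials in `s` as a subring of `k(s)` -/
noncomputable def GLP_psi (k : Type) {F : Type} [Field k] [Field F] [Algebra k F] (s : F) :
    k[X] →+* k⟮s⟯ :=
  ((Polynomial.aeval (IntermediateField.AdjoinSimple.gen k s) : k[X] →ₐ[k] k⟮s⟯) : k[X] →+* k⟮s⟯)

theorem GLP_comp (k : Type) {F : Type} [Field k] [Field F] [Algebra k F] (s : F) :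
    (algebraMap k⟮s⟯ F).comp (GLP_psi k s) =
      ((Polynomial.aeval s : k[X] →ₐ[k] F) : k[X] →+* F) := by
  apply RingHom.ext
  intro f
  show algebraMap k⟮s⟯ F (Polynomial.aeval (IntermediateField.AdjoinSimple.gen k s) f) =
    Polynomial.aeval s f
  rw [← Polynomial.aeval_algebraMap_apply, IntermediateField.AdjoinSimple.algebraMap_gen]

theorem GLP_ev (k : Type) {F : Type} [Field k] [Field F] [Algebra k F] (s z : F) (P : k[X][X]) :
    Polynomial.eval z ((P.map (GLP_psi k s)).map (algebraMap k⟮s⟯ F)) = ev s z P := by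
  rw [Polynomial.map_map, GLP_comp, Polynomial.eval_map]
  rfl

theorem GLP : GLP_stmt := by
  intro k F _ _ _ s z P m hP hdeg htop hz r hr hrP
  have hmon : (P.map (GLP_psi k s)).Monic := hP.map _
  have hmonF : ((P.map (GLP_psi k s)).map (algebraMap k⟮s⟯ F)).Monic := hmon.map _
  have hdF : ((P.map (GLP_psi k s)).map (algebraMap k⟮s⟯ F)).natDegree = m := by
    rw [hmon.natDegree_map, hP.natDegree_map, hdeg]
  have hsub : (Finset.univ.image r).val ≤ ((P.map (GLP_psi k s)).map (algebraMap k⟮s⟯ F)).roots := by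
    rw [Multiset.le_iff_subset (Finset.univ.image r).nodup]
    intro x hx
    rw [Finset.mem_val, Finset.mem_image] at hx
    obtain ⟨i, _, rfl⟩ := hx
    rw [Polynomial.mem_roots hmonF.ne_zero, Polynomial.IsRoot.def, GLP_ev]
    exact hrP i
  have hcard : (Finset.univ.image r).val.card = m := by
    rw [Finset.card_val, Finset.card_image_of_injective _ hr, Finset.card_univ, Fintype.card_fin]
  have hroots : ((P.map (GLP_psi k s)).map (algebraMap k⟮s⟯ F)).roots = (Finset.univ.image r).val := by
    symm
    apply Multiset.eq_of_le_of_card_le hsub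
    rw [hcard, ← hdF]
    exact Polynomial.card_roots' _
  have hsplit : ((P.map (GLP_psi k s)).map (algebraMap k⟮s⟯ F)).Splits := by
    rw [Polynomial.splits_iff_card_roots, hroots, hcard, hdF]
  have hsep : (P.map (GLP_psi k s)).Separable := by
    rw [← Polynomial.nodup_aroots_iff_of_splits hmon.ne_zero hsplit, Polynomial.aroots, hroots]
    exact (Finset.univ.image r).nodup
  have hzr : Polynomial.aeval z (P.map (GLP_psi k s)) = 0 := by
    rw [← Polynomial.eval_map_algebraMap, GLP_ev]
    exact hz
  have hzalg : IsAlgebraic k⟮s⟯ z := ⟨_, hmon.ne_zero, hzr⟩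
  have hadj : Algebra.adjoin k⟮s⟯ ({z} : Set F) = ⊤ := by
    rw [← IntermediateField.adjoin_simple_toSubalgebra_of_isAlgebraic hzalg, htop,
      IntermediateField.top_toSubalgebra]
  haveI : (P.map (GLP_psi k s)).IsSplittingField k⟮s⟯ F := by
    refine ⟨hsplit, ?_⟩
    rw [eq_top_iff, ← hadj]
    apply Algebra.adjoin_mono
    intro x hx
    rw [Set.mem_singleton_iff.1 hx]
    exact Polynomial.mem_rootSet.2 ⟨hmon.ne_zero, hzr⟩
  exact IsGalois.of_separable_splitting_field hsep

end Pool.Agent.helper70.QSD
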