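import Pool.Agent.helper70.QSD.SpecA

/-! # Row qsd:RT2 -/

set_option linter.unusedVariables false

namespace Pool.Agent.helper70.QSD

open Pool.Agent.helper53.AU
open scoped Classical IntermediateField Polynomial

theorem RT2 : RT2_stmt := by
  intro k _ _ _ N hN
  have h1 : 1 < 2 ^ N := Nat.one_lt_two_pow (by omega)
  have hd : (Polynomial.X ^ 2 ^ N - Polynomial.X : k[X]).natDegree = 2 ^ N :=
    FiniteField.X_pow_card_sub_X_natDegree_eq k h1
  have h0 : (Polynomial.X ^ 2 ^ N - Polynomial.X : k[X]) ≠ 0 :=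
    FiniteField.X_pow_card_sub_X_ne_zero k h1
  have hs : (Polynomial.X ^ 2 ^ N - Polynomial.X : k[X]).Separable :=
    galois_poly_separable 2 (2 ^ N) (dvd_pow_self 2 (by omega))
  refine ⟨(Polynomial.X ^ 2 ^ N - Polynomial.X : k[X]).roots.toFinset, ?_, ?_⟩
  · rw [Multiset.toFinset_card_of_nodup (Polynomial.nodup_roots hs)]
    rw [← (IsAlgClosed.splits (Polynomial.X ^ 2 ^ N - Polynomial.X : k[X])).natDegree_eq_card_roots,
      hd]
  · intro c
    rw [Multiset.mem_toFinset, Polynomial.mem_roots h0, Polynomial.IsRoot.def,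
      Polynomial.eval_sub, Polynomial.eval_pow, Polynomial.eval_X, sub_eq_zero]

end Pool.Agent.helper70.QSD
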